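import Pool.Agent.Helper93.RS.Defs
import Pool.Agent.Helper13.RP.Layer

/-!
RS-1, second half (MP_464c42_nt): the selection of `n + 2` forms containing `t` and one of two given ones. (helper81)
-/

set_option autoImplicit false

namespace Pool.Agent.Helper81.RS

open Finset
open Pool.Agent.Helper93.RS (exS)

/-- from a linear inequality of logarithms to a product -/
private theorem st_prod {r : ℕ} {Y : Fin r → ℕ} (hY : ∀ i, 1 ≤ Y i) {F : Finset (Fin r)} {E : ℝ}
    (h : ∑ i ∈ F, Real.log (Y i) ≤ E * ∑ i, Real.log (Y i)) :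
    ∏ i ∈ F, (Y i : ℝ) ≤ (∏ i, (Y i : ℝ)) ^ E := by
  have hpos : ∀ i, (0 : ℝ) < (Y i : ℝ) := fun i => by exact_mod_cast hY i
  have h1 : 0 < ∏ i, (Y i : ℝ) := prod_pos fun i _ => hpos i
  have h2 : 0 < ∏ i ∈ F, (Y i : ℝ) := prod_pos fun i _ => hpos i
  rw [Real.rpow_def_of_pos h1, ← Real.exp_log h2, Real.exp_le_exp,
    Real.log_prod (fun i _ => (hpos i).ne'), Real.log_prod (fun i _ => (hpos i).ne')]
  linarith

/-- the `n` smallest elements besides `t` and `x`, if at least `r - n - 1` elements besides `x` are at most `Y x` -/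
private theorem st_small {n r : ℕ} (hn : 1 ≤ n) (hr : n + 2 ≤ r) {Y : Fin r → ℕ} (hY : ∀ i, 1 ≤ Y i)
    {t x : Fin r} (ht : ∀ i, Y i ≤ Y t) (htx : t ≠ x) {B : Finset (Fin r)} (hB : ∀ i ∈ B, Y i ≤ Y x)
    (hBc : r ≤ B.card + n) :
    ∃ F : Finset (Fin r), F.card = n ∧ t ∉ F ∧ x ∉ F ∧
      ∏ i ∈ F, (Y i : ℝ) ≤ (∏ i, (Y i : ℝ)) ^ exS n r := by
  classical
  have hD : ({t, x} : Finset (Fin r)).card = 2 := card_pair htx
  have hA : (univ \ ({t, x} : Finset (Fin r))).card = r - 2 := by
    rw [card_sdiff_of_subset (subset_univ _), hD, card_univ, Fintype.card_fin]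
  obtain ⟨F, hFA, hFn, hF⟩ := Pool.Agent.Helper13.RP.exists_smallest Y
    (univ \ ({t, x} : Finset (Fin r))) n (by omega)
  have hdis : Disjoint F ({t, x} : Finset (Fin r)) := by
    rw [disjoint_left]
    intro i hi hi'
    exact (mem_sdiff.1 (hFA hi)).2 hi'
  have htF : t ∉ F := fun h => disjoint_left.1 hdis h (by simp)
  have hxF : x ∉ F := fun h => disjoint_left.1 hdis h (by simp)
  refine ⟨F, hFn, htF, hxF, st_prod hY ?_⟩
  have hrR : (0 : ℝ) < r := by exact_mod_cast (by omega : 0 < r)
  have hnR : (0 : ℝ) < n := by exact_mod_cast hn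
  have hE1 : (n : ℝ) / r ≤ exS n r := le_max_left _ _
  have hE2 : (2 * (n : ℝ) + 1 - r) / n ≤ exS n r := le_max_right _ _
  have hE0 : 0 ≤ exS n r := le_trans (by positivity) hE1
  have hrn : (n : ℝ) + 2 ≤ r := by exact_mod_cast hr
  have hlog : ∀ i, 0 ≤ Real.log (Y i) := fun i => Real.log_natCast_nonneg _
  have key := Pool.Agent.Helper13.RP.layer_le (fun i : Fin r => if i ∈ F then (1 : ℝ) else 0)
    (exS n r) (fun i => Real.log (Y i)) hlog (by
      intro s hs
      set U : Finset (Fin r) := univ.filter (fun i => s < Real.log (Y i)) with hU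
      have hsum : ∑ i ∈ U, (if i ∈ F then (1 : ℝ) else 0) = ((F ∩ U).card : ℝ) := by
        rw [← sum_filter, sum_const, nsmul_eq_mul, mul_one, inter_comm, ← filter_mem_eq_inter]
      rw [hsum]
      have hUl : ∀ i ∈ U, ∀ j, j ∉ U → Y j < Y i := by
        intro i hi j hj
        rw [hU, mem_filter] at hi hj
        by_contra hcon
        apply hj
        refine ⟨mem_univ _, lt_of_lt_of_le hi.2 ?_⟩
        apply Real.log_le_log (by exact_mod_cast hY i)
        exact_mod_cast not_lt.1 hcon
      have hu0 : (0 : ℝ) ≤ (U.card : ℝ) := Nat.cast_nonneg _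
      rcases Pool.Agent.Helper13.RP.card_above Y ({t, x} : Finset (Fin r)) F U hdis
        (fun i hi j hj hjF => hF i hi j (mem_sdiff.2 ⟨mem_univ _, hj⟩) hjF) hUl with h0 | h0
      · rw [h0]
        push_cast
        exact mul_nonneg hE0 hu0
      · rw [hFn, Fintype.card_fin] at h0
        rcases (F ∩ U).eq_empty_or_nonempty with h1 | ⟨a, ha⟩
        · rw [h1, card_empty]
          push_cast
          exact mul_nonneg hE0 hu0
        have haU : a ∈ U := (mem_inter.1 ha).2
        have htU : t ∈ U := by
          by_contra hcon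
          have := hUl a haU t hcon
          have := ht a
          omega
        have hur : U.card ≤ r := by
          have := card_le_univ U
          rwa [Fintype.card_fin] at this
        have hurR : (U.card : ℝ) ≤ r := by exact_mod_cast hur
        by_cases hxU : x ∈ U
        · -- `x ∈ U`
          have h2 : (({t, x} : Finset (Fin r)) \ U) = ∅ := by
            rw [sdiff_eq_empty_iff_subset]
            intro i hi
            rw [mem_insert, mem_singleton] at hi
            rcases hi with rfl | rfl
            · exact htU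
            · exact hxU
          rw [h2, card_empty] at h0
          have h3 : ((F ∩ U).card : ℝ) = n + U.card - r := by
            have : ((F ∩ U).card : ℝ) + r = n + U.card + 0 := by exact_mod_cast h0
            linarith
          rw [h3]
          refine le_trans ?_ (mul_le_mul_of_nonneg_right hE1 hu0)
          rw [div_mul_eq_mul_div, le_div_iff₀ hrR]
          nlinarith
        · -- `x ∉ U`
          have h2 : (({t, x} : Finset (Fin r)) \ U) = {x} := by
            ext i
            rw [mem_sdiff, mem_insert, mem_singleton]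
            constructor
            · rintro ⟨rfl | rfl, h3⟩
              · exact absurd htU h3
              · rfl
            · rintro rfl
              exact ⟨Or.inr rfl, hxU⟩
          rw [h2, card_singleton] at h0
          have hun : U.card ≤ n := by
            have h3 : Disjoint U B := by
              rw [disjoint_left]
              intro i hi hi'
              have h4 := hUl i hi x hxU
              have h5 := hB i hi'
              omega
            have h4 := card_le_univ (U ∪ B)
            rw [card_union_of_disjoint h3, Fintype.card_fin] at h4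
            omega
          have hunR : (U.card : ℝ) ≤ n := by exact_mod_cast hun
          have h3 : ((F ∩ U).card : ℝ) = n + U.card + 1 - r := by
            have : ((F ∩ U).card : ℝ) + r = n + U.card + 1 := by exact_mod_cast h0
            linarith
          rw [h3]
          refine le_trans ?_ (mul_le_mul_of_nonneg_right hE2 hu0)
          rw [div_mul_eq_mul_div, le_div_iff₀ hnR]
          nlinarith)
  have h1 : ∑ i, (if i ∈ F then (1 : ℝ) else 0) * Real.log (Y i) = ∑ i ∈ F, Real.log (Y i) := by
    simp only [ite_mul, one_mul, zero_mul]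
    rw [sum_ite_mem, univ_inter]
  rw [h1] at key
  exact key

/-- an enumeration of a set -/
private theorem st_enum {r m : ℕ} {S : Finset (Fin r)} (hS : S.card = m) :
    ∃ e : Fin m → Fin r, Function.Injective e ∧ (∀ h, e h ∈ S) ∧ ∀ x ∈ S, ∃ h, e h = x := by
  refine ⟨S.orderEmbOfFin hS, (S.orderEmbOfFin hS).injective, fun h => orderEmbOfFin_mem S hS h, ?_⟩
  intro x hx
  have h1 := range_orderEmbOfFin S hS
  have h2 : x ∈ Set.range (S.orderEmbOfFin hS) := by
    rw [h1]
    exact hx
  exact h2

theorem sel_two (n r : ℕ) (hn : 1 ≤ n) (hr : n + 2 ≤ r) (Y : Fin r → ℕ) (hY : ∀ i, 1 ≤ Y i)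
    (t : Fin r) (ht : ∀ i, Y i ≤ Y t) :
    ∃ (e : Fin (n + 2) → Fin r) (i : Fin (n + 2)), Function.Injective e ∧ e i = t ∧
      ∀ b b' : Fin (n + 2), b ≠ i → b' ≠ i → b ≠ b' → ∃ c, (c = b ∨ c = b') ∧
        ∃ (e' : Fin (n + 2) → Fin r) (i' j' : Fin (n + 2)), Function.Injective e' ∧
          i' ≠ j' ∧ e' i' = t ∧ e' j' = e c ∧
          (∏ h ∈ (Finset.univ.erase i').erase j', (Y (e' h) : ℝ)) ≤
            (∏ i, (Y i : ℝ)) ^ exS n r := by
  classical
  have hA : (univ.erase t : Finset (Fin r)).card = r - 1 := by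
    rw [card_erase_of_mem (mem_univ _), card_univ, Fintype.card_fin]
  obtain ⟨F0, hF0A, hF0c, hF0⟩ := Pool.Agent.Helper13.RP.exists_smallest Y
    (univ.erase t : Finset (Fin r)) (r - n - 2) (by omega)
  have htF0 : t ∉ F0 := fun h => notMem_erase t _ (hF0A h)
  have hS : (univ \ F0 : Finset (Fin r)).card = n + 2 := by
    rw [card_sdiff_of_subset (subset_univ _), card_univ, Fintype.card_fin, hF0c]
    omega
  obtain ⟨e, he, heS, hesur⟩ := st_enum hS
  obtain ⟨i, hi⟩ := hesur t (mem_sdiff.2 ⟨mem_univ _, htF0⟩)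
  refine ⟨e, i, he, hi, fun b b' hb hb' hbb => ?_⟩
  -- the index with the larger value
  obtain ⟨c, c', hc, hci, hc'i, hcc, hle⟩ : ∃ c c' : Fin (n + 2), (c = b ∨ c = b') ∧ c ≠ i ∧
      c' ≠ i ∧ c ≠ c' ∧ Y (e c') ≤ Y (e c) := by
    rcases le_total (Y (e b')) (Y (e b)) with h | h
    · exact ⟨b, b', Or.inl rfl, hb, hb', hbb, h⟩
    · exact ⟨b', b, Or.inr rfl, hb', hb, hbb.symm, h⟩
  refine ⟨c, hc, ?_⟩
  have htx : t ≠ e c := by
    rw [← hi]
    exact fun h => hci (he h).symm
  have htx' : t ≠ e c' := by
    rw [← hi]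
    exact fun h => hc'i (he h).symm
  have hne : e c ≠ e c' := fun h => hcc (he h)
  have hcF : e c ∉ F0 := (mem_sdiff.1 (heS c)).2
  have hc'F : e c' ∉ F0 := (mem_sdiff.1 (heS c')).2
  obtain ⟨F, hFc, htF, hxF, hprod⟩ := st_small (n := n) hn hr hY ht htx
    (B := insert (e c) (insert (e c') F0)) (by
      intro j hj
      rw [mem_insert, mem_insert] at hj
      rcases hj with rfl | rfl | hj
      · exact le_rfl
      · exact hle
      · exact hF0 j hj (e c) (mem_erase.2 ⟨htx.symm, mem_univ _⟩) hcF) (by
      rw [card_insert_of_notMem, card_insert_of_notMem hc'F, hF0c]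
      · omega
      · rw [mem_insert, not_or]
        exact ⟨hne, hcF⟩)
  have hxF' : t ∉ insert (e c) F := by
    rw [mem_insert, not_or]
    exact ⟨htx, htF⟩
  have hS' : (insert t (insert (e c) F)).card = n + 2 := by
    rw [card_insert_of_notMem hxF', card_insert_of_notMem hxF, hFc]
  obtain ⟨e', he', heS', hesur'⟩ := st_enum hS'
  obtain ⟨i', hi'⟩ := hesur' t (mem_insert_self _ _)
  obtain ⟨j', hj'⟩ := hesur' (e c) (mem_insert_of_mem (mem_insert_self _ _))
  refine ⟨e', i', j', he', ?_, hi', hj', ?_⟩
  · rintro rfl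
    exact htx (hi'.symm.trans hj')
  refine le_trans (le_of_eq ?_) hprod
  refine prod_bij (fun h _ => e' h) ?_ ?_ ?_ ?_
  · intro h hh
    rw [mem_erase, mem_erase] at hh
    have h1 := heS' h
    rw [mem_insert, mem_insert] at h1
    rcases h1 with h1 | h1 | h1
    · exact absurd (he' (h1.trans hi'.symm)) hh.2.1
    · exact absurd (he' (h1.trans hj'.symm)) hh.1
    · exact h1
  · intro h _ h' _ hhh
    exact he' hhh
  · intro x hx
    obtain ⟨h, hh⟩ := hesur' x (mem_insert_of_mem (mem_insert_of_mem hx))
    refine ⟨h, ?_, hh⟩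
    rw [mem_erase, mem_erase]
    refine ⟨?_, ?_, mem_univ _⟩
    · rintro rfl
      rw [hj'] at hh
      rw [← hh] at hx
      exact hxF hx
    · rintro rfl
      rw [hi'] at hh
      rw [← hh] at hx
      exact htF hx
  · intro h _
    rfl

end Pool.Agent.Helper81.RS
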